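import Pool.Agent.N835.FT.Slow

set_option autoImplicit false

/-! Almost all integers fall below `n ^ β` within `2 (log₂ (2 n)) ^ 2` Collatz steps, with a power saving. -/

namespace Pool.Agent.N835.FT

open Pool.Agent.H499R2.ND (Td)
open Pool.Agent.H319R2 (beta beta_lt)

/-- the Collatz function -/
def C (n : ℕ) : ℕ := if n % 2 = 0 then n / 2 else 3 * n + 1

/-- Within `2 (log₂ (2 n))²` steps the trajectory of `n` falls below `n ^ β`. -/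
def Falls (β : ℝ) (n : ℕ) : Prop :=
  ∃ j : ℕ, (j : ℝ) ≤ 2 * Real.logb 2 (2 * n) ^ 2 ∧ ((C^[j] n : ℕ) : ℝ) < (n : ℝ) ^ β

/-- the terms of the shortcut trajectory -/
theorem iter_Td (k : ℕ) : ∀ n : ℕ, ∃ o : ℕ, o ≤ 2 * k ∧ (Td 1)^[k] (n : ℤ) = ((C^[o] n : ℕ) : ℤ) := by
  induction k with
  | zero => intro n; exact ⟨0, by omega, rfl⟩
  | succ k ih =>
    intro n
    by_cases h : n % 2 = 0
    · obtain ⟨o, ho1, ho⟩ := ih (n / 2)
      refine ⟨o + 1, by omega, ?_⟩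
      rw [Function.iterate_succ_apply, Function.iterate_succ_apply]
      have e1 : Td 1 (n : ℤ) = ((n / 2 : ℕ) : ℤ) := by
        unfold Td
        rw [if_pos (by omega)]
        omega
      have e2 : C n = n / 2 := by simp only [C]; rw [if_pos h]
      rw [e1, e2, ho]
    · obtain ⟨o, ho1, ho⟩ := ih ((3 * n + 1) / 2)
      refine ⟨o + 2, by omega, ?_⟩
      rw [Function.iterate_succ_apply, Function.iterate_succ_apply, Function.iterate_succ_apply]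
      have e1 : Td 1 (n : ℤ) = (((3 * n + 1) / 2 : ℕ) : ℤ) := by
        unfold Td
        rw [if_neg (by omega)]
        omega
      have e2 : C n = 3 * n + 1 := by simp only [C]; rw [if_neg h]
      have e3 : C (3 * n + 1) = (3 * n + 1) / 2 := by simp only [C]; rw [if_pos (by omega)]
      rw [e1, e2, e3, ho]

theorem beta_nonneg : (0 : ℝ) ≤ beta := by
  unfold beta
  apply div_nonneg _ (Real.log_nonneg (by norm_num))
  apply Real.binEntropy_nonneg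
  · exact div_nonneg (Real.log_nonneg (by norm_num)) (Real.log_nonneg (by norm_num))
  · rw [div_le_one (Real.log_pos (by norm_num))]
    exact Real.log_le_log (by norm_num) (by norm_num)

/-- large powers -/
theorem large_pow {β : ℝ} (hβ0 : 0 < β) : ∃ k₀ : ℕ, 1 ≤ k₀ ∧ ∀ k : ℕ, k₀ ≤ k →
    4 * (((k + 1 : ℕ) : ℝ) * (k + 1 : ℕ)) ≤ (2 : ℝ) ^ ⌊β * k⌋₊ := by
  have h1 : (1 : ℝ) < (2 : ℝ) ^ β := Real.one_lt_rpow (by norm_num) hβ0
  have h2 := tendsto_pow_const_div_const_pow_of_one_lt 2 h1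
  have h3 := h2.eventually_lt_const (show (0 : ℝ) < 1 / 32 by norm_num)
  obtain ⟨k₁, hk₁⟩ := Filter.eventually_atTop.1 h3
  refine ⟨max k₁ 1, le_max_right _ _, fun k hk => ?_⟩
  have h4 := hk₁ k ((le_max_left _ _).trans hk)
  have hk1 : (1 : ℝ) ≤ k := by exact_mod_cast (le_max_right k₁ 1).trans hk
  have hp : 0 < ((2 : ℝ) ^ β) ^ k := by positivity
  rw [div_lt_iff₀ hp] at h4
  have h5 : ((2 : ℝ) ^ β) ^ k ≤ 2 * (2 : ℝ) ^ ⌊β * k⌋₊ := by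
    rw [← Real.rpow_natCast ((2 : ℝ) ^ β), ← Real.rpow_mul (by norm_num)]
    calc (2 : ℝ) ^ (β * k) ≤ (2 : ℝ) ^ ((⌊β * k⌋₊ : ℝ) + 1) :=
          Real.rpow_le_rpow_of_exponent_le (by norm_num) (Nat.lt_floor_add_one _).le
      _ = 2 * (2 : ℝ) ^ ⌊β * k⌋₊ := by
          rw [Real.rpow_add (by norm_num), Real.rpow_one, Real.rpow_natCast, mul_comm]
  push_cast
  nlinarith

/-- a dyadic block -/
theorem block {η : ℝ} (hb : beta < η) (hη0 : 0 < η) (hη1 : η < 1) {β : ℝ} (hβ0 : 0 < β) (hβ1 : β ≤ 1) :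
    ∃ (A : ℝ) (k₀ : ℕ), 0 < A ∧ ∀ k : ℕ, k₀ ≤ k →
      ({t : ℕ | 2 ^ k ≤ t ∧ t < 2 ^ (k + 1) ∧ ¬ Falls β t}.ncard : ℝ) ≤
        A * ((k + 1 : ℕ) : ℝ) ^ 9 * (2 : ℝ) ^ ((1 - (1 - η) * β) * k) := by
  classical
  obtain ⟨A, hA, h⟩ := slow2 hb hη0 hη1
  obtain ⟨k₀, hk₀, hk₀2⟩ := large_pow hβ0
  refine ⟨4 * A, k₀, by positivity, fun k hk => ?_⟩
  set F : Finset ℕ := (Finset.Ico (2 ^ k) (2 ^ (k + 1))).filter (fun t => ¬ Falls β t) with hF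
  have hset : {t : ℕ | 2 ^ k ≤ t ∧ t < 2 ^ (k + 1) ∧ ¬ Falls β t} = (F : Set ℕ) := by
    ext t
    rw [hF]
    simp only [Finset.coe_filter, Finset.mem_Ico]
    exact ⟨fun h => ⟨⟨h.1, h.2.1⟩, h.2.2⟩, fun h => ⟨h.1.1, h.1.2, h.2⟩⟩
  rw [hset, Set.ncard_coe_finset, ← Finset.card_image_of_injective F (f := fun t : ℕ => (t : ℤ)) Nat.cast_injective]
  have hlk : ⌊β * k⌋₊ ≤ k + 1 := by
    have h1 : ⌊β * k⌋₊ ≤ ⌊((k : ℕ) : ℝ)⌋₊ := Nat.floor_le_floor (by nlinarith [(Nat.cast_nonneg k : (0 : ℝ) ≤ k)])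
    rw [Nat.floor_natCast] at h1
    omega
  have h1 := h (k + 1) ⌊β * k⌋₊ (by omega) hlk (hk₀2 k hk) (F.image (fun t : ℕ => (t : ℤ))) (by
    intro x hx
    rw [Finset.mem_image] at hx
    obtain ⟨t, ht, rfl⟩ := hx
    rw [hF, Finset.mem_filter, Finset.mem_Ico] at ht
    obtain ⟨⟨ht1, ht2⟩, ht3⟩ := ht
    have ht1' : (2 : ℝ) ^ k ≤ t := by exact_mod_cast ht1
    have ht0 : (0 : ℝ) < t := lt_of_lt_of_le (by positivity) ht1'
    refine ⟨?_, fun n hn => ?_⟩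
    · rw [Int.cast_natCast, abs_of_pos ht0]
      exact_mod_cast ht2
    · by_contra hcon
      push Not at hcon
      apply ht3
      obtain ⟨o, ho1, ho2⟩ := iter_Td n t
      refine ⟨o, ?_, ?_⟩
      · have h2 : ((k + 1 : ℕ) : ℝ) ≤ Real.logb 2 (2 * t) := by
          rw [Real.le_logb_iff_rpow_le (by norm_num) (by positivity), Real.rpow_natCast, pow_succ]
          linarith
        have h3 : (o : ℝ) ≤ 2 * (((k + 1 : ℕ) : ℝ) * (k + 1 : ℕ)) := by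
          exact_mod_cast ho1.trans (Nat.mul_le_mul_left 2 hn)
        have h4 : (0 : ℝ) ≤ ((k + 1 : ℕ) : ℝ) := Nat.cast_nonneg _
        nlinarith
      · rw [ho2, Int.cast_natCast, abs_of_nonneg (Nat.cast_nonneg _)] at hcon
        refine hcon.trans_le ?_
        calc (2 : ℝ) ^ ⌊β * k⌋₊ = (2 : ℝ) ^ ((⌊β * k⌋₊ : ℕ) : ℝ) := (Real.rpow_natCast _ _).symm
          _ ≤ (2 : ℝ) ^ (β * k) :=
              Real.rpow_le_rpow_of_exponent_le (by norm_num) (Nat.floor_le (by positivity))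
          _ = ((2 : ℝ) ^ k) ^ β := by
              rw [← Real.rpow_natCast, ← Real.rpow_mul (by norm_num)]; congr 1; ring
          _ ≤ (t : ℝ) ^ β := Real.rpow_le_rpow (by positivity) ht1' hβ0.le)
  refine h1.trans ?_
  have h2 : (2 : ℝ) ^ (-(1 - η) * (⌊β * k⌋₊ : ℝ)) ≤ 2 * (2 : ℝ) ^ (-(1 - η) * (β * k)) := by
    have h3 : β * k < (⌊β * k⌋₊ : ℝ) + 1 := Nat.lt_floor_add_one _
    calc (2 : ℝ) ^ (-(1 - η) * (⌊β * k⌋₊ : ℝ)) ≤ (2 : ℝ) ^ (1 + -(1 - η) * (β * k)) := by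
          apply Real.rpow_le_rpow_of_exponent_le (by norm_num)
          nlinarith
      _ = _ := by rw [Real.rpow_add (by norm_num), Real.rpow_one]
  have h3 : (2 : ℝ) ^ ((1 - (1 - η) * β) * k) = (2 : ℝ) ^ k * (2 : ℝ) ^ (-(1 - η) * (β * k)) := by
    rw [← Real.rpow_natCast, ← Real.rpow_add (by norm_num)]
    congr 1
    ring
  rw [h3]
  have h4 : (0 : ℝ) ≤ A * ((k + 1 : ℕ) : ℝ) ^ 9 * (2 : ℝ) ^ (k + 1) := by positivity
  calc A * ((k + 1 : ℕ) : ℝ) ^ 9 * (2 : ℝ) ^ (k + 1) * (2 : ℝ) ^ (-(1 - η) * (⌊β * k⌋₊ : ℝ))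
      ≤ A * ((k + 1 : ℕ) : ℝ) ^ 9 * (2 : ℝ) ^ (k + 1) * (2 * (2 : ℝ) ^ (-(1 - η) * (β * k))) :=
        mul_le_mul_of_nonneg_left h2 h4
    _ = _ := by rw [pow_succ]; ring

theorem fin_lt (β : ℝ) (N : ℕ) : {t : ℕ | 1 ≤ t ∧ t < N ∧ ¬ Falls β t}.Finite :=
  (Set.finite_Iio N).subset fun _ ht => ht.2.1

/-- below a power of two -/
theorem below {η : ℝ} (hb : beta < η) (hη0 : 0 < η) (hη1 : η < 1) {β : ℝ} (hβ0 : 0 < β) (hβ1 : β ≤ 1) :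
    ∃ A B : ℝ, 0 < A ∧ 0 < B ∧ ∀ k : ℕ, ({t : ℕ | 1 ≤ t ∧ t < 2 ^ k ∧ ¬ Falls β t}.ncard : ℝ) ≤
        B + A * (k : ℝ) ^ 10 * (2 : ℝ) ^ ((1 - (1 - η) * β) * k) := by
  obtain ⟨A, k₀, hA, h⟩ := block hb hη0 hη1 hβ0 hβ1
  have hσ : 0 ≤ 1 - (1 - η) * β := by nlinarith
  refine ⟨A, 2 ^ k₀, hA, by positivity, fun k => ?_⟩
  induction k with
  | zero =>
    have h1 : {t : ℕ | 1 ≤ t ∧ t < 2 ^ 0 ∧ ¬ Falls β t} = ∅ := by
      ext t
      simp only [pow_zero, Set.mem_ofPred_eq, Set.mem_empty_iff_false, iff_false]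
      omega
    rw [h1, Set.ncard_empty]
    simp
  | succ k ih =>
    rcases lt_or_ge k k₀ with hk | hk
    · have h1 : {t : ℕ | 1 ≤ t ∧ t < 2 ^ (k + 1) ∧ ¬ Falls β t} ⊆ (Finset.Ico 1 (2 ^ (k + 1)) : Set ℕ) := by
        intro t ht
        rw [Finset.coe_Ico]
        exact ⟨ht.1, ht.2.1⟩
      have h2 := Set.ncard_le_ncard h1 (Finset.finite_toSet _)
      rw [Set.ncard_coe_finset, Nat.card_Ico] at h2
      have h3 : {t : ℕ | 1 ≤ t ∧ t < 2 ^ (k + 1) ∧ ¬ Falls β t}.ncard ≤ 2 ^ k₀ :=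
        h2.trans ((Nat.sub_le _ _).trans (Nat.pow_le_pow_right (by norm_num) hk))
      have h4 : ({t : ℕ | 1 ≤ t ∧ t < 2 ^ (k + 1) ∧ ¬ Falls β t}.ncard : ℝ) ≤ 2 ^ k₀ := by exact_mod_cast h3
      have h5 : 0 ≤ A * ((k + 1 : ℕ) : ℝ) ^ 10 * (2 : ℝ) ^ ((1 - (1 - η) * β) * (k + 1 : ℕ)) := by positivity
      linarith
    · have h1 : {t : ℕ | 1 ≤ t ∧ t < 2 ^ (k + 1) ∧ ¬ Falls β t} ⊆ {t : ℕ | 1 ≤ t ∧ t < 2 ^ k ∧ ¬ Falls β t} ∪
          {t : ℕ | 2 ^ k ≤ t ∧ t < 2 ^ (k + 1) ∧ ¬ Falls β t} := by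
        rintro t ⟨h1, h2, h3⟩
        rcases lt_or_ge t (2 ^ k) with h4 | h4
        · exact Or.inl ⟨h1, h4, h3⟩
        · exact Or.inr ⟨h4, h2, h3⟩
      have hfin : {t : ℕ | 2 ^ k ≤ t ∧ t < 2 ^ (k + 1) ∧ ¬ Falls β t}.Finite :=
        (Set.finite_Iio (2 ^ (k + 1))).subset fun _ ht => ht.2.1
      have h2 : ({t : ℕ | 1 ≤ t ∧ t < 2 ^ (k + 1) ∧ ¬ Falls β t}.ncard : ℝ) ≤
          ({t : ℕ | 1 ≤ t ∧ t < 2 ^ k ∧ ¬ Falls β t}.ncard : ℝ) +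
          ({t : ℕ | 2 ^ k ≤ t ∧ t < 2 ^ (k + 1) ∧ ¬ Falls β t}.ncard : ℝ) := by
        exact_mod_cast (Set.ncard_le_ncard h1 ((fin_lt β _).union hfin)).trans (Set.ncard_union_le _ _)
      have h3 := h k hk
      have hk0 : (0 : ℝ) ≤ k := Nat.cast_nonneg k
      have e0 : ((k + 1 : ℕ) : ℝ) = (k : ℝ) + 1 := by push_cast; ring
      have h4 : (2 : ℝ) ^ ((1 - (1 - η) * β) * k) ≤ (2 : ℝ) ^ ((1 - (1 - η) * β) * (k + 1 : ℕ)) := by
        apply Real.rpow_le_rpow_of_exponent_le (by norm_num)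
        apply mul_le_mul_of_nonneg_left _ hσ
        rw [e0]; linarith
      set P := (2 : ℝ) ^ ((1 - (1 - η) * β) * k) with hP
      set P' := (2 : ℝ) ^ ((1 - (1 - η) * β) * (k + 1 : ℕ)) with hP'
      have hP0 : 0 < P := by positivity
      have h5 : (k : ℝ) ^ 9 ≤ ((k + 1 : ℕ) : ℝ) ^ 9 := pow_le_pow_left₀ hk0 (by rw [e0]; linarith) _
      have h6 : A * (k : ℝ) ^ 10 * P + A * ((k + 1 : ℕ) : ℝ) ^ 9 * P ≤ A * ((k + 1 : ℕ) : ℝ) ^ 10 * P' := by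
        calc A * (k : ℝ) ^ 10 * P + A * ((k + 1 : ℕ) : ℝ) ^ 9 * P
            = A * ((k : ℝ) ^ 9 * k + ((k + 1 : ℕ) : ℝ) ^ 9) * P := by ring
          _ ≤ A * (((k + 1 : ℕ) : ℝ) ^ 9 * k + ((k + 1 : ℕ) : ℝ) ^ 9) * P := by
              apply mul_le_mul_of_nonneg_right _ hP0.le
              apply mul_le_mul_of_nonneg_left _ hA.le
              have := mul_le_mul_of_nonneg_right h5 hk0
              linarith
          _ = A * ((k + 1 : ℕ) : ℝ) ^ 10 * P := by rw [e0]; ring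
          _ ≤ _ := mul_le_mul_of_nonneg_left h4 (by positivity)
      linarith

/-- powers of the exponent -/
theorem pow_ten {ε : ℝ} (hε : 0 < ε) : ∃ c : ℝ, 0 < c ∧ ∀ k : ℕ, (k : ℝ) ^ 10 ≤ c * (2 : ℝ) ^ (ε * k) := by
  have hl : 0 < Real.log 2 := Real.log_pos (by norm_num)
  refine ⟨(Nat.factorial 10 : ℝ) / (ε * Real.log 2) ^ 10, by positivity, fun k => ?_⟩
  have h1 := Real.pow_div_factorial_le_exp (ε * Real.log 2 * k) (by positivity) 10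
  have e : Real.exp (ε * Real.log 2 * k) = (2 : ℝ) ^ (ε * k) := by
    rw [Real.rpow_def_of_pos (by norm_num)]; congr 1; ring
  rw [e, mul_pow, div_le_iff₀ (by positivity)] at h1
  rw [div_mul_eq_mul_div, le_div_iff₀ (by positivity)]
  linarith

/-- **All but at most `C X ^ (1 - (1 - H) β + ε)` of the `n ≤ X` fall below `n ^ β` within `2 (log₂ (2 n))²` steps.** -/
theorem saving {β : ℝ} (hβ0 : 0 < β) (hβ1 : β ≤ 1) (ε : ℝ) (hε : 0 < ε) : ∃ K : ℝ, ∀ X : ℕ, 1 ≤ X →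
    ({t : ℕ | 1 ≤ t ∧ t ≤ X ∧ ¬ Falls β t}.ncard : ℝ) ≤ K * (X : ℝ) ^ (1 - (1 - beta) * β + ε) := by
  have hb1 := beta_lt
  have hb0 := beta_nonneg
  obtain ⟨η, hη1, hη2⟩ := exists_between (show beta < min 1 (beta + ε / 2) from
    lt_min (by linarith) (by linarith))
  have hη3 : η < 1 := hη2.trans_le (min_le_left _ _)
  have hη4 : η < beta + ε / 2 := hη2.trans_le (min_le_right _ _)
  obtain ⟨A, B, hA, hB, h⟩ := below hη1 (by linarith) hη3 hβ0 hβ1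
  obtain ⟨c, hc, hc2⟩ := pow_ten (half_pos hε)
  set σ := 1 - (1 - η) * β with hσ
  have hσ0 : 0 ≤ σ := by rw [hσ]; nlinarith
  refine ⟨B + A * c * (2 : ℝ) ^ (ε / 2 + σ), fun X hX => ?_⟩
  have hX1 : (1 : ℝ) ≤ X := by exact_mod_cast hX
  have hX0 : (0 : ℝ) < X := by linarith
  set k := Nat.log 2 X + 1 with hk
  have h1 : X < 2 ^ k := Nat.lt_pow_succ_log_self (by norm_num) _
  have h2 : 2 ^ (Nat.log 2 X) ≤ X := Nat.pow_log_le_self 2 (by omega)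
  have h3 : (2 : ℝ) ^ (k : ℝ) ≤ 2 * X := by
    rw [Real.rpow_natCast, hk, pow_succ]
    have : (2 : ℝ) ^ (Nat.log 2 X) ≤ X := by exact_mod_cast h2
    linarith
  have h4 : ∀ a : ℝ, 0 ≤ a → (2 : ℝ) ^ (a * k) ≤ (2 : ℝ) ^ a * (X : ℝ) ^ a := by
    intro a ha
    rw [← Real.mul_rpow (by norm_num) hX0.le, mul_comm a, Real.rpow_mul (by norm_num)]
    exact Real.rpow_le_rpow (by positivity) h3 ha
  have h5 : ({t : ℕ | 1 ≤ t ∧ t ≤ X ∧ ¬ Falls β t}.ncard : ℝ) ≤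
      ({t : ℕ | 1 ≤ t ∧ t < 2 ^ k ∧ ¬ Falls β t}.ncard : ℝ) := by
    have hsub : {t : ℕ | 1 ≤ t ∧ t ≤ X ∧ ¬ Falls β t} ⊆ {t : ℕ | 1 ≤ t ∧ t < 2 ^ k ∧ ¬ Falls β t} :=
      fun t ht => ⟨ht.1, lt_of_le_of_lt ht.2.1 h1, ht.2.2⟩
    exact_mod_cast Set.ncard_le_ncard hsub (fin_lt β _)
  have h6 : (k : ℝ) ^ 10 * (2 : ℝ) ^ (σ * k) ≤ c * (2 : ℝ) ^ (ε / 2 + σ) * (X : ℝ) ^ (σ + ε / 2) := by
    calc (k : ℝ) ^ 10 * (2 : ℝ) ^ (σ * k) ≤ (c * ((2 : ℝ) ^ (ε / 2) * (X : ℝ) ^ (ε / 2))) *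
          ((2 : ℝ) ^ σ * (X : ℝ) ^ σ) := by
          apply mul_le_mul _ (h4 σ hσ0) (by positivity) (by positivity)
          exact (hc2 k).trans (mul_le_mul_of_nonneg_left (h4 _ (half_pos hε).le) hc.le)
      _ = _ := by rw [Real.rpow_add (by norm_num), Real.rpow_add hX0]; ring
  have h7 : (X : ℝ) ^ (σ + ε / 2) ≤ (X : ℝ) ^ (1 - (1 - beta) * β + ε) := by
    apply Real.rpow_le_rpow_of_exponent_le hX1
    rw [hσ]
    nlinarith
  have h8 : (1 : ℝ) ≤ (X : ℝ) ^ (1 - (1 - beta) * β + ε) := by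
    apply Real.one_le_rpow hX1
    nlinarith
  set Z := (X : ℝ) ^ (1 - (1 - beta) * β + ε) with hZ
  calc ({t : ℕ | 1 ≤ t ∧ t ≤ X ∧ ¬ Falls β t}.ncard : ℝ) ≤ B + A * (k : ℝ) ^ 10 * (2 : ℝ) ^ (σ * k) := h5.trans (h k)
    _ = B + A * ((k : ℝ) ^ 10 * (2 : ℝ) ^ (σ * k)) := by ring
    _ ≤ B + A * (c * (2 : ℝ) ^ (ε / 2 + σ) * (X : ℝ) ^ (σ + ε / 2)) := by
        have := mul_le_mul_of_nonneg_left h6 hA.le
        linarith
    _ ≤ B * Z + A * (c * (2 : ℝ) ^ (ε / 2 + σ) * Z) := by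
        have a1 : B * 1 ≤ B * Z := mul_le_mul_of_nonneg_left h8 hB.le
        have a2 : A * (c * (2 : ℝ) ^ (ε / 2 + σ) * (X : ℝ) ^ (σ + ε / 2)) ≤ A * (c * (2 : ℝ) ^ (ε / 2 + σ) * Z) := by
          apply mul_le_mul_of_nonneg_left _ hA.le
          exact mul_le_mul_of_nonneg_left h7 (by positivity)
        linarith
    _ = _ := by ring

end Pool.Agent.N835.FT
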