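import Pool.Agent.H828R3.GP.Three

/-! The integers which stay above `2 ^ l` during the first `k ^ 2` steps of the shortcut Collatz map: a version with a time
bound of the uniform power saving `H828R3/GP` (same proof). -/

set_option autoImplicit false

namespace Pool.Agent.N835.FT

open Finset Pool.Agent.H319R3.GC Pool.Agent.H828R3.GP
open Pool.Agent.H499R2.ND (Td)
open Pool.Agent.H319R2 (beta beta_lt)

variable {d : ℕ} {m r : ℕ → ℤ}

/-- the points of a class that stay above `d^l` during `k^2` steps -/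
theorem card_slow (h : Adm d m r) {R : ℝ} (hR : ∀ i < d, |(r i : ℝ)| ≤ R) (hR0 : 0 ≤ R) {s K : ℝ}
    (hs : 0 ≤ s) (hK1 : 1 ≤ K) (hK : ∑ j ∈ range d, (|(m j : ℝ)| / d) ^ s ≤ K) (hKd : K < d)
    {k l q : ℕ} (hq : 0 < q) (c : ℤ) (hk1 : 1 ≤ k) (hlk : l ≤ k)
    (hl : 4 * (k * k) * R ≤ (d : ℝ) ^ l) (S : Finset ℤ)
    (hS : ∀ x ∈ S, |(x : ℝ)| < (d : ℝ) ^ k ∧ (q : ℤ) ∣ x - c ∧
      ∀ n : ℕ, n ≤ k * k → (d : ℝ) ^ l ≤ |(((Tm d m r)^[n] x : ℤ) : ℝ)|) :
    (S.card : ℝ) ≤ k * (3 * (2 * d) ^ s * ((k * k + 1) ^ (d + 1) *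
      (8 * (k * k) * R * d * ((d : ℝ) ^ k * (K / d) ^ l) / q + (d : ℝ) ^ k * (K / d) ^ k))) := by
  classical
  have hqR : (0 : ℝ) < q := by exact_mod_cast hq
  have hd1 : (1 : ℝ) ≤ d := by exact_mod_cast (by have := h.two_le; omega : 1 ≤ d)
  have hd0 : (0 : ℝ) < d := by linarith
  have hkR : (1 : ℝ) ≤ k := by exact_mod_cast hk1
  have hK0 : 0 < K := by linarith
  have hκ1 : K / d ≤ 1 := by rw [div_le_one hd0]; exact hKd.le
  have hκ0 : 0 ≤ K / d := by positivity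
  have hsum0 : 0 ≤ ∑ j ∈ range d, (|(m j : ℝ)| / d) ^ s := sum_nonneg fun j _ => by positivity
  have hsub : S ⊆ (Ioc l k).biUnion (fun i => Pa d m r k i (k * k) q c (St d m r i)) := by
    intro x hx
    obtain ⟨h1, h2, h3⟩ := hS x hx
    by_contra hcon
    simp only [mem_biUnion, mem_Ioc, not_exists, not_and] at hcon
    obtain ⟨n, hn0, hfp⟩ := descend h hR hR0 (k := k) (l := l) (by
      refine le_trans ?_ hl
      apply mul_le_mul_of_nonneg_right _ hR0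
      nlinarith) h1 (by
      intro i hi hik n hn hfp hst
      apply hcon i ⟨hi, hik⟩
      unfold Pa
      rw [mem_filter]
      exact ⟨mem_Icc_of_abs h1, h1, h2, n, hn, hfp, hst⟩) (k - l) (by omega)
    have e : k - (k - l) = l := by omega
    rw [e] at hfp
    have h4 := hfp.2
    have h5 := h3 n (hn0.trans (Nat.mul_le_mul_right _ (Nat.sub_le _ _)))
    linarith
  have h1 : (S.card : ℝ) ≤ ∑ i ∈ Ioc l k, ((Pa d m r k i (k * k) q c (St d m r i)).card : ℝ) := by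
    exact_mod_cast (card_le_card hsub).trans card_biUnion_le
  set W : ℝ := 3 * (2 * d) ^ s * ((k * k + 1) ^ (d + 1) *
      (8 * (k * k) * R * d * ((d : ℝ) ^ k * (K / d) ^ l) / q + (d : ℝ) ^ k * (K / d) ^ k)) with hW
  have hW0 : 0 ≤ W := by positivity
  have h2 : ∀ i ∈ Ioc l k, ((Pa d m r k i (k * k) q c (St d m r i)).card : ℝ) ≤ W := by
    intro i hi
    rw [mem_Ioc] at hi
    have a1 := card_Pa h hR hR0 (k := k) (i := i) (N := k * k) (q := q) (by omega) hi.2 (by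
      push_cast
      exact hl.trans (pow_le_pow_right₀ hd1 hi.1.le)) hq c (St d m r i) (by
      intro y hy
      unfold St at hy
      rw [mem_filter] at hy
      exact hy.2.1)
    have a2 := card_St h hs i
    have a3 : (∑ j ∈ range d, (|(m j : ℝ)| / d) ^ s) ^ i ≤ K ^ i := pow_le_pow_left₀ hsum0 hK i
    refine a1.trans ?_
    push_cast
    have a4 : K ^ i ≤ K ^ k := pow_le_pow_right₀ hK1 hi.2
    have a5 : K ^ i * (d : ℝ) ^ (k - i + 1) ≤ d * ((d : ℝ) ^ k * (K / d) ^ l) := by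
      have e1 : K ^ i = (d : ℝ) ^ i * (K / d) ^ i := by rw [← mul_pow]; congr 1; field_simp
      have e2 : (K / d) ^ i ≤ (K / d) ^ l := pow_le_pow_of_le_one hκ0 hκ1 hi.1.le
      have e3 : (d : ℝ) ^ i * (d : ℝ) ^ (k - i + 1) = d * (d : ℝ) ^ k := by
        rw [← pow_add, ← pow_succ']; congr 1; omega
      calc K ^ i * (d : ℝ) ^ (k - i + 1) = ((d : ℝ) ^ i * (d : ℝ) ^ (k - i + 1)) * (K / d) ^ i := by
            rw [e1]; ring
        _ ≤ ((d : ℝ) ^ i * (d : ℝ) ^ (k - i + 1)) * (K / d) ^ l :=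
            mul_le_mul_of_nonneg_left e2 (by positivity)
        _ = _ := by rw [e3]; ring
    have a6 : K ^ k = (d : ℝ) ^ k * (K / d) ^ k := by rw [← mul_pow]; congr 1; field_simp
    have a7 : (St d m r i).card * (8 * ((k : ℝ) * k) * R * (d : ℝ) ^ (k - i + 1) / q + 1) ≤
        3 * (2 * d) ^ s * (8 * (k * k) * R * d * ((d : ℝ) ^ k * (K / d) ^ l) / q +
          (d : ℝ) ^ k * (K / d) ^ k) := by
      have b1 : ((St d m r i).card : ℝ) ≤ 3 * (2 * d) ^ s * K ^ i :=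
        a2.trans (mul_le_mul_of_nonneg_left a3 (by positivity))
      refine (mul_le_mul_of_nonneg_right b1 (by positivity)).trans ?_
      rw [mul_assoc (3 * (2 * (d : ℝ)) ^ s)]
      apply mul_le_mul_of_nonneg_left _ (by positivity)
      rw [mul_add, mul_one]
      apply add_le_add
      · calc K ^ i * (8 * ((k : ℝ) * k) * R * (d : ℝ) ^ (k - i + 1) / q)
            = 8 * ((k : ℝ) * k) * R * (K ^ i * (d : ℝ) ^ (k - i + 1)) / q := by ring
          _ ≤ 8 * ((k : ℝ) * k) * R * (d * ((d : ℝ) ^ k * (K / d) ^ l)) / q := by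
              apply div_le_div_of_nonneg_right _ hqR.le
              exact mul_le_mul_of_nonneg_left a5 (by positivity)
          _ = _ := by ring
      · rw [← a6]; exact a4
    calc ((St d m r i).card : ℝ) * ((k * k + 1) * ((k * k + 1) ^ d *
          (8 * (k * k) * R * (d : ℝ) ^ (k - i + 1) / q + 1)))
        = (k * k + 1) ^ (d + 1) * ((St d m r i).card *
          (8 * ((k : ℝ) * k) * R * (d : ℝ) ^ (k - i + 1) / q + 1)) := by ring
      _ ≤ (k * k + 1) ^ (d + 1) * (3 * (2 * d) ^ s *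
          (8 * (k * k) * R * d * ((d : ℝ) ^ k * (K / d) ^ l) / q + (d : ℝ) ^ k * (K / d) ^ k)) :=
          mul_le_mul_of_nonneg_left a7 (by positivity)
      _ = W := by rw [hW]; ring
  calc (S.card : ℝ) ≤ ∑ i ∈ Ioc l k, ((Pa d m r k i (k * k) q c (St d m r i)).card : ℝ) := h1
    _ ≤ (Ioc l k).card • W := sum_le_card_nsmul _ _ _ h2
    _ = ((k - l : ℕ) : ℝ) * W := by rw [Nat.card_Ioc, nsmul_eq_mul]
    _ ≤ k * W := by
        apply mul_le_mul_of_nonneg_right _ hW0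
        exact_mod_cast Nat.sub_le _ _


/-- the Collatz map -/
theorem slow2 {η : ℝ} (hb : beta < η) (hη0 : 0 < η) (hη1 : η < 1) : ∃ A : ℝ, 0 < A ∧ ∀ k l : ℕ, 1 ≤ k → l ≤ k →
    4 * ((k : ℝ) * k) ≤ (2 : ℝ) ^ l → ∀ S : Finset ℤ,
    (∀ x ∈ S, |(x : ℝ)| < (2 : ℝ) ^ k ∧ ∀ n : ℕ, n ≤ k * k → (2 : ℝ) ^ l ≤ |(((Td 1)^[n] x : ℤ) : ℝ)|) →
    (S.card : ℝ) ≤ A * (k : ℝ) ^ 9 * (2 : ℝ) ^ k * (2 : ℝ) ^ (-(1 - η) * l) := by
  obtain ⟨s, hs, hsum⟩ := Pool.Agent.H319R2.Tk.cond η hb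
  have hsum' : ∑ j ∈ range 2, (|(m3 j : ℝ)| / ((2 : ℕ) : ℝ)) ^ s ≤ (2 : ℝ) ^ η := by
    rw [Finset.sum_range_succ, Finset.sum_range_one]
    simp only [m3]
    norm_num
    have e : (1 / 2 : ℝ) ^ s = 2⁻¹ ^ s := by norm_num
    rw [e] at hsum
    first
      | exact hsum.le
      | (refine le_trans (le_of_eq ?_) hsum.le; norm_num)
  have hK1 : (1 : ℝ) ≤ (2 : ℝ) ^ η := Real.one_le_rpow (by norm_num) hη0.le
  have hKd : (2 : ℝ) ^ η < ((2 : ℕ) : ℝ) := by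
    calc (2 : ℝ) ^ η < (2 : ℝ) ^ (1 : ℝ) := Real.rpow_lt_rpow_of_exponent_lt (by norm_num) hη1
      _ = ((2 : ℕ) : ℝ) := by norm_num
  have hR : ∀ i < 2, |((r3 1 i : ℤ) : ℝ)| ≤ 1 := by
    intro i hi
    interval_cases i <;> simp [r3]
  refine ⟨3 * 4 ^ s * 8 * 17, by positivity, fun k l hk hlk hkl S hS => ?_⟩
  have hk1 : (1 : ℝ) ≤ k := by exact_mod_cast hk
  have h1 := card_slow (adm3 odd_one) hR zero_le_one hs hK1 hsum' hKd (k := k) (l := l) (q := 1) one_pos 0 hk hlk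
    (by push_cast; linarith) S (by
      intro x hx
      obtain ⟨h1, h2⟩ := hS x hx
      refine ⟨by push_cast; exact h1, by simp, fun n hn => ?_⟩
      rw [Tm3]
      push_cast
      exact h2 n hn)
  push_cast at h1
  have hκ0 : 0 < (2 : ℝ) ^ η / 2 := by positivity
  have hκ1 : (2 : ℝ) ^ η / 2 ≤ 1 := by
    rw [div_le_one (by norm_num)]
    push_cast at hKd
    exact hKd.le
  have e1 : (2 : ℝ) ^ (-(1 - η) * l) = ((2 : ℝ) ^ η / 2) ^ l := by
    rw [Real.rpow_mul (by norm_num), Real.rpow_natCast]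
    congr 1
    rw [show -(1 - η) = η - 1 by ring, Real.rpow_sub (by norm_num), Real.rpow_one]
  have e2 : ((2 : ℝ) ^ η / 2) ^ k ≤ ((2 : ℝ) ^ η / 2) ^ l := pow_le_pow_of_le_one hκ0.le hκ1 hlk
  set V : ℝ := ((2 : ℝ) ^ η / 2) ^ l with hV
  have hV0 : 0 < V := pow_pos hκ0 _
  rw [e1]
  have e3 : ((k : ℝ) * k + 1) ^ (2 + 1) ≤ 8 * (k : ℝ) ^ 6 := by
    have h2 : (k : ℝ) * k + 1 ≤ 2 * (k : ℝ) ^ 2 := by nlinarith
    calc ((k : ℝ) * k + 1) ^ (2 + 1) ≤ (2 * (k : ℝ) ^ 2) ^ (2 + 1) := pow_le_pow_left₀ (by positivity) h2 _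
      _ = 8 * (k : ℝ) ^ 6 := by ring
  have e4 : 8 * ((k : ℝ) * k) * 1 * 2 * (2 ^ k * V) / 1 + 2 ^ k * ((2 : ℝ) ^ η / 2) ^ k ≤
      17 * (k : ℝ) ^ 2 * (2 ^ k * V) := by
    have h2 : (2 : ℝ) ^ k * ((2 : ℝ) ^ η / 2) ^ k ≤ 2 ^ k * V := mul_le_mul_of_nonneg_left e2 (by positivity)
    have h3 : 1 * ((2 : ℝ) ^ k * V) ≤ (k : ℝ) ^ 2 * (2 ^ k * V) :=
      mul_le_mul_of_nonneg_right (by nlinarith) (by positivity)
    rw [div_one]
    nlinarith
  calc (S.card : ℝ) ≤ _ := h1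
    _ ≤ k * (3 * (2 * 2) ^ s * (8 * (k : ℝ) ^ 6 * (17 * (k : ℝ) ^ 2 * (2 ^ k * V)))) := by
        apply mul_le_mul_of_nonneg_left _ (by positivity)
        apply mul_le_mul_of_nonneg_left _ (by positivity)
        exact mul_le_mul e3 e4 (by positivity) (by positivity)
    _ = _ := by
        rw [show (2 : ℝ) * 2 = 4 by norm_num]
        ring

end Pool.Agent.N835.FT
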